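import Pool.Agent.Q95.PS.NoA

/-!
Project PS (helper284), job NO: the operator form of Gallagher's theorem.
-/

set_option autoImplicit false
set_option linter.unusedSectionVars false

open Finset Polynomial ComplexConjugate
open Pool.Agent.H341R2.Sharp (Mon mem_Mon)
open Pool.Agent.Q284.PS

namespace Pool.Agent.Q95.PS

section

variable {F : Type} [Field F] [Fintype F]

lemma two_le_qq : 2 ≤ qq F := by
  unfold qq
  exact_mod_cast Fintype.one_lt_card

lemma cm_prod {R : ℕ} {ι : Type} {χ : ι → F[X] → ℂ} (h : Fam R χ) (i j : ι) :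
    CM (fun f => χ i f * conj (χ j f)) := by
  obtain ⟨Q, l, hQ, -⟩ := h.lev i
  obtain ⟨Q', l', hQ', -⟩ := h.lev j
  refine ⟨?_, fun f g hf hg => ?_⟩
  · show χ i 1 * conj (χ j 1) = 1
    rw [hQ.one, hQ'.one, map_one, mul_one]
  · show χ i (f * g) * conj (χ j (f * g)) = χ i f * conj (χ j f) * (χ i g * conj (χ j g))
    rw [hQ.mul f g hf hg, hQ'.mul f g hf hg, map_mul]
    ring

lemma nsq_conj {ι : Type} [Fintype ι] (c : ι → ℂ) : nsq (fun i => conj (c i)) = nsq c := by
  unfold nsq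
  refine Finset.sum_congr rfl fun i _ => ?_
  rw [RCLike.norm_conj]

/-- the primes of small degree -/
lemma small_sum (hCPR : S_CPR) (y n : ℕ) :
    (open Classical in ∑ P ∈ (PD F n).filter (fun P => ¬ y < P.natDegree), (P.natDegree : ℝ))
      ≤ 2 * qq F ^ y := by
  classical
  have h1 : ∑ P ∈ (PD F n).filter (fun P => ¬ y < P.natDegree), (P.natDegree : ℝ)
      ≤ ∑ m ∈ Icc 1 y, ∑ P ∈ PD F m, (P.natDegree : ℝ) := by
    calc ∑ P ∈ (PD F n).filter (fun P => ¬ y < P.natDegree), (P.natDegree : ℝ)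
        ≤ ∑ P ∈ (Icc 1 y).biUnion (fun m => (PI F m)), (P.natDegree : ℝ) := by
          apply Finset.sum_le_sum_of_subset_of_nonneg
          · intro P hP
            obtain ⟨h2, h3⟩ := mem_filter.mp hP
            obtain ⟨h4, h5, -⟩ := mem_PD.mp h2
            rw [mem_biUnion]
            refine ⟨P.natDegree, ?_, mem_PI.mpr ⟨⟨h4.1, rfl⟩, h5⟩⟩
            rw [mem_Icc]
            exact ⟨one_le_deg h5, by omega⟩
          · intro P _ _
            positivity
      _ = ∑ m ∈ Icc 1 y, ∑ P ∈ PI F m, (P.natDegree : ℝ) := by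
          apply Finset.sum_biUnion
          intro a _ b _ hab
          rw [Function.onFun, Finset.disjoint_left]
          intro P hP hP'
          exact hab ((mem_PI.mp hP).1.2.symm.trans (mem_PI.mp hP').1.2)
      _ ≤ ∑ m ∈ Icc 1 y, ∑ P ∈ PD F m, (P.natDegree : ℝ) := by
          refine Finset.sum_le_sum fun m _ => ?_
          apply Finset.sum_le_sum_of_subset_of_nonneg
          · intro P hP
            obtain ⟨h2, h3⟩ := mem_PI.mp hP
            exact mem_PD.mpr ⟨⟨h2.1, h2.2.le⟩, h3, by rw [h2.2]⟩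
          · intro P _ _
            positivity
  have h2 : ∀ m ∈ Icc 1 y, ∑ P ∈ PD F m, (P.natDegree : ℝ) = qq F ^ m := by
    intro m hm
    have h3 := hCPR F m (mem_Icc.mp hm).1
    unfold qq
    exact_mod_cast h3
  rw [Finset.sum_congr rfl h2] at h1
  refine h1.trans ?_
  have hq := two_le_qq (F := F)
  clear h1 h2
  induction y with
  | zero => simp
  | succ y ih =>
    rw [Finset.sum_Icc_succ_top (by omega)]
    have h3 : 0 < qq F ^ y := pow_pos qq_pos y
    rw [pow_succ]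
    nlinarith

end

open Classical in
theorem t_NO : S_RB → S_AB → S_IDN → S_I3 → S_PW → S_OPM → S_POL → S_CPR → S_NO := by
  intro ⟨C₁, c₀, hC₁, hc₀, hRB⟩ ⟨C₂, hC₂, hAB⟩ hIDN hI3 ⟨C₃, hC₃, hPW⟩ hOPM hPOL hCPR
  set C : ℝ := 2 * C₁ + 2 * C₂ + 2 + C₃ with hCdef
  have hC : 0 < C := by positivity
  obtain ⟨K, hK, hOPM'⟩ := hOPM C c₀ hC hc₀
  obtain ⟨N₀, hN₀⟩ : ∃ N₀ : ℕ, ∀ n ≥ N₀, (n : ℝ) ^ 2 * (2 : ℝ) ^ (-(3 * (n : ℝ) / 8)) ≤ 1 / 6 := by
    have h1 : |(2 : ℝ) ^ (-(3 : ℝ) / 8)| < 1 := by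
      rw [abs_of_pos (by positivity)]
      exact Real.rpow_lt_one_of_one_lt_of_neg (by norm_num) (by norm_num)
    have h2 := tendsto_pow_const_mul_const_pow_of_abs_lt_one 2 h1
    have h3 := h2.eventually (ge_mem_nhds (show (0 : ℝ) < 1 / 6 by norm_num))
    obtain ⟨N₀, h4⟩ := Filter.eventually_atTop.mp h3
    refine ⟨N₀, fun n hn => ?_⟩
    have h5 := h4 n hn
    have e : ((2 : ℝ) ^ (-(3 : ℝ) / 8)) ^ n = (2 : ℝ) ^ (-(3 * (n : ℝ) / 8)) := by
      rw [← Real.rpow_natCast, ← Real.rpow_mul (by norm_num)]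
      congr 1
      ring
    rw [e] at h5
    exact h5
  refine ⟨⌈48 * K⌉₊ + 16 + N₀, by omega, ?_⟩
  intro F _ _ hF R n ι _ χ h hn c
  set d₁ := ⌈48 * K⌉₊ + 16 + N₀ with hd₁
  have hd16 : 16 * (R + 1) ≤ n := (Nat.mul_le_mul_right _ (by omega)).trans hn
  have hdN : N₀ ≤ n := by
    have : N₀ * 1 ≤ d₁ * (R + 1) := Nat.mul_le_mul (by omega) (by omega)
    omega
  have hn1 : 1 ≤ n := by omega
  have hnpos : (0 : ℝ) < n := by exact_mod_cast hn1
  set y := 8 * (R + 1) with hy
  have hy1 : 1 ≤ y := by omega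
  have hRy : 8 * R ≤ y := by omega
  have hRy' : R ≤ y := by omega
  have hy0 : (0 : ℝ) < y := by exact_mod_cast hy1
  have hKy : K * y / n ≤ 1 / 6 := by
    rw [div_le_iff₀ hnpos]
    have h1 : 48 * K ≤ d₁ := by
      have h2 := Nat.le_ceil (48 * K)
      have h3 : (⌈48 * K⌉₊ : ℝ) ≤ d₁ := by exact_mod_cast (by omega : ⌈48 * K⌉₊ ≤ d₁)
      linarith
    have h4 : ((d₁ : ℝ)) * ((R : ℝ) + 1) ≤ n := by exact_mod_cast hn
    have h5 : (y : ℝ) = 8 * ((R : ℝ) + 1) := by rw [hy]; push_cast; ring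
    rw [h5]
    have h6 : (0 : ℝ) ≤ (R : ℝ) + 1 := by positivity
    nlinarith
  have hq2 := two_le_qq (F := F)
  have hq0 : 0 < qq F := qq_pos
  -- the matrices
  have hidn := fun i j => hIDN F y (fun f => χ i f * conj (χ j f)) (cm_prod h i j)
  have hcardRo : ∀ l : ℕ, 1 ≤ l → ((Ro F y l).card : ℝ) / qq F ^ l ≤ C₁ / y := by
    intro l hl
    rw [div_le_iff₀ (pow_pos hq0 l)]
    exact (hRB F R y ι χ h hy1 hRy l hl).1
  have hr : ∀ k : ℕ, 1 ≤ k → ∀ u v : ι → ℂ,
      ‖offF (fun i j => rr y (fun f => χ i f * conj (χ j f)) k) u v‖ ≤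
        2 * (C₁ / y * Real.exp (-(c₀ * k / y))) * Real.sqrt (nsq u) * Real.sqrt (nsq v) := by
    intro k hk u v
    apply hPOL ι _ (C₁ / y * Real.exp (-(c₀ * k / y))) (by positivity)
    intro c'
    rw [r_form h hRy' k c', norm_div, norm_pow, Complex.norm_real, Complex.norm_real,
      Real.norm_eq_abs, Real.norm_of_nonneg hq0.le, div_le_iff₀ (pow_pos hq0 k)]
    have h1 := ((hRB F R y ι χ h hy1 hRy k hk).2 c').1
    calc _ ≤ C₁ / y * Real.exp (-(c₀ * k / y)) * qq F ^ k * nsq c' := h1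
      _ = _ := by ring
  have hop := hOPM' ι y (fun k i j => rr y (fun f => χ i f * conj (χ j f)) k)
    (fun k i j => mm y (fun f => χ i f * conj (χ j f)) k)
    (fun k i j => AA y (fun f => χ i f * conj (χ j f)) k) hy1
    (fun n hn i j _ => hI3 (fun k => rr y (fun f => χ i f * conj (χ j f)) k)
      (fun k => mm y (fun f => χ i f * conj (χ j f)) k)
      (fun k => AA y (fun f => χ i f * conj (χ j f)) k) (hidn i j).1 (hidn i j).2.1
      (fun n hn => ((hidn i j).2.2 n hn).1) (fun n hn => ((hidn i j).2.2 n hn).2) n hn)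
    (fun i j => (hidn i j).2.1)
    (fun k hk u v => by
      refine (hr k hk u v).trans ?_
      apply mul_le_mul_of_nonneg_right _ (Real.sqrt_nonneg _)
      apply mul_le_mul_of_nonneg_right _ (Real.sqrt_nonneg _)
      have h1 : 2 * (C₁ / (y : ℝ) * Real.exp (-(c₀ * k / y)))
          = (2 * C₁) / y * Real.exp (-(c₀ * k / y)) := by ring
      rw [h1]
      apply mul_le_mul_of_nonneg_right _ (Real.exp_pos _).le
      apply div_le_div_of_nonneg_right _ hy0.le
      rw [hCdef]
      linarith)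
    (fun k l hk hl u v => by
      have h1 := rm_bound (y := y) h (fun i j => rr y (fun f => χ i f * conj (χ j f)) k)
        (2 * (C₁ / y * Real.exp (-(c₀ * k / y)))) (by positivity) (hr k hk) l u v
      refine h1.trans ?_
      have h2 : ((Ro F y l).card : ℝ) / qq F ^ l *
          (2 * (C₁ / y * Real.exp (-(c₀ * k / y))) * Real.sqrt (nsq u) * Real.sqrt (nsq v))
          ≤ C₁ / y *
          (2 * (C₁ / y * Real.exp (-(c₀ * k / y))) * Real.sqrt (nsq u) * Real.sqrt (nsq v)) :=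
        mul_le_mul_of_nonneg_right (hcardRo l hl) (by positivity)
      refine h2.trans ?_
      have h3 : C₁ / (y : ℝ) *
          (2 * (C₁ / y * Real.exp (-(c₀ * k / y))) * Real.sqrt (nsq u) * Real.sqrt (nsq v))
          = (2 * C₁ / y) * Real.exp (-(c₀ * k / y)) * (C₁ / y) * Real.sqrt (nsq u) *
            Real.sqrt (nsq v) := by ring
      rw [h3]
      apply mul_le_mul_of_nonneg_right _ (Real.sqrt_nonneg _)
      apply mul_le_mul_of_nonneg_right _ (Real.sqrt_nonneg _)
      have h4 : 2 * C₁ / (y : ℝ) ≤ C / y := by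
        apply div_le_div_of_nonneg_right _ hy0.le
        rw [hCdef]
        linarith
      have h5 : C₁ / (y : ℝ) ≤ C / y := by
        apply div_le_div_of_nonneg_right _ hy0.le
        rw [hCdef]
        linarith
      apply mul_le_mul _ h5 (by positivity) (by positivity)
      exact mul_le_mul_of_nonneg_right h4 (Real.exp_pos _).le)
    (fun k hk u v => by
      have h1 : ‖offF (fun i j => AA y (fun f => χ i f * conj (χ j f)) k) u v‖ ≤
          2 * (C₂ + 1) * Real.sqrt (nsq u) * Real.sqrt (nsq v) := by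
        apply hPOL ι _ (C₂ + 1) (by positivity)
        intro c'
        rw [A_form h hRy' k c', norm_div, norm_pow, Complex.norm_real, Complex.norm_real,
          Real.norm_eq_abs, Real.norm_of_nonneg hq0.le, div_le_iff₀ (pow_pos hq0 k)]
        have h2 := (hAB F R y ι χ h hy1 hRy k hk c').1
        have h3 : 0 ≤ ∑ P ∈ (PD F k).filter (fun P => y < P.natDegree),
            (P.natDegree : ℝ) * ‖phi χ c' (P ^ (k / P.natDegree))‖ ^ 2 :=
          Finset.sum_nonneg fun P _ => by positivity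
        have h4 : ∑ P ∈ (PD F k).filter (fun P => y < P.natDegree), (P.natDegree : ℝ)
            ≤ qq F ^ k := by
          have h5 : ∑ P ∈ PD F k, (P.natDegree : ℝ) = qq F ^ k := by
            have h6 := hCPR F k hk
            unfold qq
            exact_mod_cast h6
          rw [← h5]
          apply Finset.sum_le_sum_of_subset_of_nonneg (Finset.filter_subset _ _)
          intro P _ _
          positivity
        have h5 : 0 ≤ ∑ P ∈ (PD F k).filter (fun P => y < P.natDegree), (P.natDegree : ℝ) :=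
          Finset.sum_nonneg fun P _ => by positivity
        have h6 := nsq_nn c'
        have h7 := mul_le_mul_of_nonneg_right h4 h6
        have h8 := mul_nonneg h5 h6
        have h9 : 0 < qq F ^ k := pow_pos hq0 k
        have h10 : 0 ≤ C₂ * qq F ^ k * nsq c' := by positivity
        have h11 : 0 ≤ qq F ^ k * nsq c' := by positivity
        rw [abs_le]
        constructor <;> nlinarith
      refine h1.trans ?_
      apply mul_le_mul_of_nonneg_right _ (Real.sqrt_nonneg _)
      apply mul_le_mul_of_nonneg_right _ (Real.sqrt_nonneg _)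
      rw [hCdef]
      linarith)
    (fun k hk i j hij => by
      refine (hPW F hF R y ι χ h hy1 hRy i j hij k hk).trans ?_
      apply div_le_div_of_nonneg_right _ (Nat.cast_nonneg k)
      apply mul_le_mul_of_nonneg_right _ hy0.le
      rw [hCdef]
      linarith)
  -- the bound in degree n
  have hopn := hop n hn1 c (fun i => conj (c i))
  have hN := nsq_nn c
  rw [A_form h hRy' n c, norm_div, norm_pow, Complex.norm_real, Complex.norm_real,
    Real.norm_eq_abs, Real.norm_of_nonneg hq0.le, div_le_iff₀ (pow_pos hq0 n), nsq_conj,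
    mul_assoc (K * y / n), Real.mul_self_sqrt hN] at hopn
  set T := ∑ P ∈ (PD F n).filter (fun P => y < P.natDegree),
    (P.natDegree : ℝ) * ‖phi χ c (P ^ (n / P.natDegree))‖ ^ 2 with hT
  set D := ∑ P ∈ (PD F n).filter (fun P => y < P.natDegree), (P.natDegree : ℝ) with hD
  set T₁ := ∑ P ∈ (PD F n).filter (fun P => y < P.natDegree ∧ P.natDegree < n),
    (P.natDegree : ℝ) * ‖phi χ c (P ^ (n / P.natDegree))‖ ^ 2 with hT₁
  set S := ∑ P ∈ PI F n, ‖phi χ c P‖ ^ 2 with hS
  have hyn : y + 4 ≤ n := by omega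
  have hsplit : T = T₁ + n * S := by
    rw [hT, ← Finset.sum_filter_add_sum_filter_not ((PD F n).filter (fun P => y < P.natDegree))
      (fun P => P.natDegree < n), hT₁, Finset.filter_filter]
    congr 1
    rw [hS, Finset.mul_sum]
    have e1 : ((PD F n).filter (fun P => y < P.natDegree)).filter (fun P => ¬ P.natDegree < n)
        = PI F n := by
      ext P
      rw [mem_filter, mem_filter, mem_PD, mem_PI]
      constructor
      · rintro ⟨⟨⟨h1, h2, -⟩, -⟩, h3⟩
        exact ⟨⟨h1.1, by omega⟩, h2⟩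
      · rintro ⟨⟨h1, h2⟩, h3⟩
        exact ⟨⟨⟨⟨h1, h2.le⟩, h3, by rw [h2]⟩, by omega⟩, by omega⟩
    rw [e1]
    refine Finset.sum_congr rfl fun P hP => ?_
    obtain ⟨⟨-, h2⟩, -⟩ := mem_PI.mp hP
    rw [h2, Nat.div_self (by omega), pow_one]
  have hT₁0 : 0 ≤ T₁ := Finset.sum_nonneg fun P _ => by positivity
  have hT₁u : T₁ ≤ (n : ℝ) ^ 2 * qq F ^ ((5 : ℝ) * n / 8) * nsq c :=
    (hAB F R y ι χ h hy1 hRy n hn1 c).2
  have hall : ∑ P ∈ PD F n, (P.natDegree : ℝ) = qq F ^ n := by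
    have h6 := hCPR F n hn1
    unfold qq
    exact_mod_cast h6
  have hDu : D ≤ qq F ^ n := by
    rw [← hall]
    apply Finset.sum_le_sum_of_subset_of_nonneg (Finset.filter_subset _ _)
    intro P _ _
    positivity
  have hDl : qq F ^ n - 2 * qq F ^ y ≤ D := by
    have h1 := small_sum (F := F) hCPR y n
    have h2 := Finset.sum_filter_add_sum_filter_not (PD F n) (fun P => y < P.natDegree)
      (fun P => (P.natDegree : ℝ))
    rw [hall] at h2
    linarith
  have hqn : 0 < qq F ^ n := pow_pos hq0 n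
  have hqy : 2 * qq F ^ y ≤ 1 / 8 * qq F ^ n := by
    have h1 : qq F ^ n = qq F ^ y * qq F ^ (n - y) := by
      rw [← pow_add]
      congr 1
      omega
    have h2 : (16 : ℝ) ≤ qq F ^ (n - y) := by
      calc (16 : ℝ) = 2 ^ 4 := by norm_num
        _ ≤ qq F ^ 4 := pow_le_pow_left₀ (by norm_num) hq2 4
        _ ≤ qq F ^ (n - y) := pow_le_pow_right₀ (by linarith) (by omega)
    have h3 : 0 < qq F ^ y := pow_pos hq0 y
    rw [h1]
    nlinarith
  have hqr : (n : ℝ) ^ 2 * qq F ^ ((5 : ℝ) * n / 8) ≤ 1 / 6 * qq F ^ n := by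
    have h1 : qq F ^ ((5 : ℝ) * n / 8) = qq F ^ n * qq F ^ (-(3 * (n : ℝ) / 8)) := by
      rw [← Real.rpow_natCast (qq F) n, ← Real.rpow_add hq0]
      congr 1
      ring
    have h2 : qq F ^ (-(3 * (n : ℝ) / 8)) ≤ (2 : ℝ) ^ (-(3 * (n : ℝ) / 8)) := by
      apply Real.rpow_le_rpow_of_nonpos (by norm_num) hq2
      have : (0 : ℝ) ≤ 3 * (n : ℝ) / 8 := by positivity
      linarith
    have h3 := hN₀ n hdN
    have h4 : (n : ℝ) ^ 2 * qq F ^ (-(3 * (n : ℝ) / 8)) ≤ 1 / 6 :=
      (mul_le_mul_of_nonneg_left h2 (by positivity)).trans h3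
    rw [h1]
    calc (n : ℝ) ^ 2 * (qq F ^ n * qq F ^ (-(3 * (n : ℝ) / 8)))
        = ((n : ℝ) ^ 2 * qq F ^ (-(3 * (n : ℝ) / 8))) * qq F ^ n := by ring
      _ ≤ 1 / 6 * qq F ^ n := mul_le_mul_of_nonneg_right h4 hqn.le
  -- conclusion
  have hopn' : |T - D * nsq c| ≤ 1 / 6 * (qq F ^ n * nsq c) := by
    refine hopn.trans ?_
    have h1 : 0 ≤ qq F ^ n * nsq c := by positivity
    calc K * y / n * nsq c * qq F ^ n = K * y / n * (qq F ^ n * nsq c) := by ring
      _ ≤ 1 / 6 * (qq F ^ n * nsq c) := mul_le_mul_of_nonneg_right hKy h1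
  obtain ⟨ha, hb⟩ := abs_le.mp hopn'
  have h1 : 0 ≤ qq F ^ n * nsq c := by positivity
  have h2 : D * nsq c ≤ qq F ^ n * nsq c := mul_le_mul_of_nonneg_right hDu hN
  have h3 : (qq F ^ n - 1 / 8 * qq F ^ n) * nsq c ≤ D * nsq c :=
    mul_le_mul_of_nonneg_right (by linarith) hN
  have h4 : T₁ ≤ 1 / 6 * qq F ^ n * nsq c := hT₁u.trans (mul_le_mul_of_nonneg_right hqr hN)
  have hlow : 1 / 2 * (qq F ^ n * nsq c) ≤ n * S := by nlinarith
  have hupp : n * S ≤ 2 * (qq F ^ n * nsq c) := by nlinarith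
  constructor
  · have e : 1 / 2 * (qq F ^ n / n) * nsq c = (1 / 2 * (qq F ^ n * nsq c)) / n := by ring
    rw [e, div_le_iff₀ hnpos]
    linarith
  · have e : 2 * (qq F ^ n / n) * nsq c = (2 * (qq F ^ n * nsq c)) / n := by ring
    rw [e, le_div_iff₀ hnpos]
    linarith

end Pool.Agent.Q95.PS
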