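import Pool.Agent.Q95.PS.RbA

/-!
Project PS (helper284), job RB: quadratic forms on rough polynomials.
-/

set_option autoImplicit false

open Finset Polynomial ComplexConjugate
open Pool.Agent.H341R2.Sharp (Mon mem_Mon)
open Pool.Agent.Q284.PS

namespace Pool.Agent.Q95.PS

section

variable {F : Type} [Field F]

open Classical in
/-- the principal character -/
noncomputable def prin (f : F[X]) : ℂ := if f.Monic then 1 else 0

lemma hay_prin : Hay (1 : F[X]) 0 (prin (F := F)) where
  monic := monic_one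
  off := fun f hf => if_neg hf
  one := if_pos monic_one
  mul := fun f g hf hg => by
    unfold prin
    rw [if_pos hf, if_pos hg, if_pos (hf.mul hg), mul_one]
  norm := fun f hf _ => by
    unfold prin
    rw [if_pos hf, norm_one]
  zero := fun f _ hc => absurd isCoprime_one_right hc
  per := fun f g hf hg _ _ => by
    unfold prin
    rw [if_pos hf, if_pos hg]

lemma fam_prin : Fam 0 (fun _ : Unit => prin (F := F)) where
  lev := fun _ => ⟨1, 0, hay_prin, by simp⟩
  sep := fun i j hij => absurd (Subsingleton.elim i j) hij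

variable [Fintype F]

lemma nsq_nonneg {ι : Type} [Fintype ι] (c : ι → ℂ) : 0 ≤ nsq c :=
  Finset.sum_nonneg fun i _ => by positivity

lemma one_le_qq : 1 ≤ qq F := by
  unfold qq
  exact_mod_cast Fintype.card_pos

/-- no rough polynomials of small degree -/
lemma ro_empty {y k : ℕ} (hk : 1 ≤ k) (hky : k ≤ y) : Ro F y k = ∅ := by
  classical
  rw [Finset.eq_empty_iff_forall_notMem]
  intro f hf
  obtain ⟨⟨h1, h2⟩, h3⟩ := mem_Ro.mp hf
  have hu : ¬ IsUnit f := by
    intro hu
    have := natDegree_eq_zero_of_isUnit hu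
    omega
  obtain ⟨g, hg1, hg2, hg3⟩ := exists_monic_irreducible_factor f hu
  have h4 := h3 g hg1 hg2 hg3
  have h5 := natDegree_le_of_dvd hg3 h1.ne_zero
  omega

/-- the third claim -/
lemma third {C : ℝ} (hC : 0 < C)
    (hUP : ∀ (F : Type) [Field F] [Fintype F] (R : ℕ) (ι : Type)
      [Fintype ι] (χ : ι → F[X] → ℂ), Fam R χ → ∀ (k : ℕ) (c : ι → ℂ),
      (2 * R ≤ k → ∑ f ∈ Mon F k, ‖phi χ c f‖ ^ 2 ≤ qq F ^ k * nsq c) ∧
      ∀ y : ℕ, 1 ≤ y → 10 * y + 2 * R ≤ k →
        ∑ f ∈ Ro F y k, ‖phi χ c f‖ ^ 2 ≤ C / y * qq F ^ k * nsq c)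
    {R y : ℕ} {ι : Type} [Fintype ι] {χ : ι → F[X] → ℂ} (h : Fam R χ) (hy : 1 ≤ y)
    (hRy : 8 * R ≤ y) {k : ℕ} (hk : 1 ≤ k) (c : ι → ℂ) :
    ∑ f ∈ Ro F y k, ‖phi χ c f‖ ^ 2 ≤ (60 * C + 30) / y * qq F ^ k * nsq c := by
  classical
  have hy0 : (0 : ℝ) < y := by exact_mod_cast hy
  have hq : 0 < qq F ^ k := pow_pos qq_pos k
  have hn := nsq_nonneg c
  rcases le_or_gt k y with h1 | h1
  · rw [ro_empty hk h1, Finset.sum_empty]
    positivity
  · rcases lt_or_ge k 30 with h2 | h2
    · have h3 := ((hUP F R ι χ h k c).1 (by omega))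
      have h4 : ∑ f ∈ Ro F y k, ‖phi χ c f‖ ^ 2 ≤ ∑ f ∈ Mon F k, ‖phi χ c f‖ ^ 2 := by
        apply Finset.sum_le_sum_of_subset_of_nonneg
        · intro f hf
          exact mem_Mon.mpr (mem_Ro.mp hf).1
        · intro f _ _
          positivity
      have h5 : 1 ≤ (60 * C + 30) / (y : ℝ) := by
        rw [le_div_iff₀ hy0]
        have : (y : ℝ) ≤ 30 := by exact_mod_cast (by omega : y ≤ 30)
        linarith
      have h6 : qq F ^ k * nsq c ≤ (60 * C + 30) / y * (qq F ^ k * nsq c) :=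
        le_mul_of_one_le_left (by positivity) h5
      calc _ ≤ qq F ^ k * nsq c := h4.trans h3
        _ ≤ _ := by rw [mul_assoc]; exact h6
    · set y' := min (k / 30) y with hy'
      have hy1 : 1 ≤ y' := by
        rw [hy']
        exact le_min (by omega) hy
      have h3 : 10 * y' + 2 * R ≤ k := by
        have : y' ≤ k / 30 := min_le_left _ _
        omega
      have h4 := (hUP F R ι χ h k c).2 y' hy1 h3
      have h5 : ∑ f ∈ Ro F y k, ‖phi χ c f‖ ^ 2 ≤ ∑ f ∈ Ro F y' k, ‖phi χ c f‖ ^ 2 := by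
        apply Finset.sum_le_sum_of_subset_of_nonneg
        · intro f hf
          obtain ⟨h6, h7⟩ := mem_Ro.mp hf
          exact mem_Ro.mpr ⟨h6, rough_mono (min_le_right _ _) h7⟩
        · intro f _ _
          positivity
      have hy'0 : (0 : ℝ) < y' := by exact_mod_cast hy1
      have h6 : y ≤ 60 * y' := by
        rcases min_choice (k / 30) y with h7 | h7
        · rw [← hy'] at h7
          omega
        · rw [← hy'] at h7
          omega
      have h7 : C / (y' : ℝ) ≤ (60 * C + 30) / y := by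
        rw [div_le_div_iff₀ hy'0 hy0]
        have h8 : (y : ℝ) ≤ 60 * y' := by exact_mod_cast h6
        nlinarith
      calc _ ≤ C / y' * qq F ^ k * nsq c := h5.trans h4
        _ ≤ _ := by
          apply mul_le_mul_of_nonneg_right _ hn
          exact mul_le_mul_of_nonneg_right h7 hq.le

end

open Classical in
theorem t_RB : S_HC → S_VAN → S_CMON → S_BH → S_UP → S_RB := by
  intro hHC hVAN hCM ⟨C₁, hC₁, hBH⟩ ⟨C₂, hC₂, hUP⟩
  have he : 1 ≤ Real.exp 2 := Real.one_le_exp (by norm_num)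
  have hC0 : 0 < 60 * C₂ + 30 + C₁ := by positivity
  refine ⟨Real.exp 2 * (60 * C₂ + 30 + C₁), 1 / 20, by positivity, by norm_num, ?_⟩
  intro F _ _ R y ι _ χ h hy hRy k hk
  have hy0 : (0 : ℝ) < y := by exact_mod_cast hy
  have hq : 0 < qq F ^ k := pow_pos qq_pos k
  have hC3 : (60 * C₂ + 30) / (y : ℝ) ≤ Real.exp 2 * (60 * C₂ + 30 + C₁) / y := by
    apply div_le_div_of_nonneg_right _ hy0.le
    nlinarith
  have hcard : ((Ro F y k).card : ℝ) ≤ (60 * C₂ + 30) / y * qq F ^ k := by
    have h1 := third hC₂ hUP (fam_prin (F := F)) hy (by omega) hk (fun _ => 1)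
    have h2 : nsq (fun _ : Unit => (1 : ℂ)) = 1 := by simp [nsq]
    have h3 : ∑ f ∈ Ro F y k, ‖phi (fun _ : Unit => prin (F := F)) (fun _ => 1) f‖ ^ 2
        = (Ro F y k).card := by
      rw [Finset.sum_congr rfl (g := fun _ => (1 : ℝ))]
      · simp
      · intro f hf
        have h4 : f.Monic := (mem_Ro.mp hf).1.1
        simp [phi, prin, h4]
    rwa [h2, h3, mul_one] at h1
  refine ⟨hcard.trans (mul_le_mul_of_nonneg_right hC3 hq.le), fun c => ?_⟩
  have hn := nsq_nonneg c
  have h3 := third hC₂ hUP h hy hRy hk c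
  refine ⟨?_, h3.trans (mul_le_mul_of_nonneg_right
    (mul_le_mul_of_nonneg_right hC3 hq.le) hn)⟩
  have hX0 : 0 ≤ ∑ f ∈ Ro F y k, ‖phi χ c f‖ ^ 2 := Finset.sum_nonneg fun f _ => by positivity
  have hY0 : 0 ≤ ((Ro F y k).card : ℝ) * nsq c := by positivity
  rcases lt_or_ge k (30 * y) with hk30 | hk30
  · -- small k
    have hY : ((Ro F y k).card : ℝ) * nsq c ≤ (60 * C₂ + 30) / y * qq F ^ k * nsq c :=
      mul_le_mul_of_nonneg_right hcard hn
    have h4 : |∑ f ∈ Ro F y k, ‖phi χ c f‖ ^ 2 - (Ro F y k).card * nsq c|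
        ≤ (60 * C₂ + 30) / y * qq F ^ k * nsq c := by
      rw [abs_le]
      constructor <;> linarith
    have h5 : 1 ≤ Real.exp 2 * Real.exp (-(1 / 20 * k / y)) := by
      rw [← Real.exp_add]
      apply Real.one_le_exp
      have h6 : (k : ℝ) ≤ 30 * y := by exact_mod_cast hk30.le
      have h7 : 1 / 20 * (k : ℝ) / y ≤ 2 := by
        rw [div_le_iff₀ hy0]
        linarith
      linarith
    have h6 : (60 * C₂ + 30) / (y : ℝ) ≤
        Real.exp 2 * (60 * C₂ + 30 + C₁) / y * Real.exp (-(1 / 20 * k / y)) := by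
      have h7 : (60 * C₂ + 30) / (y : ℝ) ≤ (60 * C₂ + 30 + C₁) / y := by
        apply div_le_div_of_nonneg_right _ hy0.le
        linarith
      have h8 : (0 : ℝ) ≤ (60 * C₂ + 30 + C₁) / y := by positivity
      calc (60 * C₂ + 30) / (y : ℝ) ≤ (60 * C₂ + 30 + C₁) / y := h7
        _ ≤ (60 * C₂ + 30 + C₁) / y * (Real.exp 2 * Real.exp (-(1 / 20 * k / y))) :=
          le_mul_of_one_le_right h8 h5
        _ = _ := by ring
    exact h4.trans (mul_le_mul_of_nonneg_right (mul_le_mul_of_nonneg_right h6 hq.le) hn)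
  · -- large k
    set b := (k - 2 * R) / (10 * y) with hb
    have hb1 : 1 ≤ b := by
      rw [hb, Nat.one_le_div_iff (by omega)]
      omega
    have hD : 10 * b * y + 2 * R ≤ k := by
      have h4 : b * (10 * y) ≤ k - 2 * R := Nat.div_mul_le_self _ _
      have h5 : 10 * b * y = b * (10 * y) := by ring
      omega
    have hbk : 1 / 20 * (k : ℝ) / y ≤ b := by
      rw [div_le_iff₀ hy0]
      have h4 : k - 2 * R < (b + 1) * (10 * y) := by
        rw [hb]
        exact (Nat.div_lt_iff_lt_mul (by omega)).mp (Nat.lt_succ_self _)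
      have h5 : k < (b + 1) * (10 * y) + 2 * R := by omega
      have h6 : (k : ℝ) < ((b : ℝ) + 1) * (10 * y) + 2 * R := by exact_mod_cast h5
      have h7 : (8 : ℝ) * R ≤ y := by exact_mod_cast hRy
      have h8 : (30 : ℝ) * y ≤ k := by exact_mod_cast hk30
      nlinarith
    obtain ⟨nu1, nu2, hsand, hdiff, hup⟩ := hBH F y b hy hb1
    have hDk : 10 * b * y ≤ k := by omega
    have hmean1 := mean_lw hCM (10 * b * y) k hDk nu1
    have hmean2 := mean_lw hCM (10 * b * y) k hDk nu2
    set X1 := ∑ d ∈ UB F (10 * b * y), nu1 d / qq F ^ d.natDegree with hX1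
    set X2 := ∑ d ∈ UB F (10 * b * y), nu2 d / qq F ^ d.natDegree with hX2
    have hs1 : ∀ f : F[X], f.Monic → lw (10 * b * y) nu1 f ≤ (if Rough y f then 1 else 0) :=
      fun f hf => (hsand f hf).1
    have hs2 : ∀ f : F[X], f.Monic → (if Rough y f then 1 else 0) ≤ lw (10 * b * y) nu2 f :=
      fun f hf => (hsand f hf).2
    -- sums over rough polynomials
    have hRo : ∀ g : F[X] → ℝ, ∑ f ∈ Ro F y k, g f
        = ∑ f ∈ Mon F k, (if Rough y f then 1 else 0) * g f := by
      intro g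
      unfold Ro
      rw [Finset.sum_filter]
      refine Finset.sum_congr rfl fun f _ => ?_
      by_cases hf : Rough y f
      · rw [if_pos hf, if_pos hf, one_mul]
      · rw [if_neg hf, if_neg hf, zero_mul]
    have hcard2 : ((Ro F y k).card : ℝ) = ∑ f ∈ Mon F k, (if Rough y f then (1 : ℝ) else 0) := by
      have h4 := hRo (fun _ => 1)
      simp only [mul_one, Finset.sum_const, nsmul_eq_mul] at h4
      exact h4
    have hc1 : qq F ^ k * X1 ≤ (Ro F y k).card := by
      rw [← hmean1, hcard2]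
      exact Finset.sum_le_sum fun f hf => hs1 f (mem_Mon.mp hf).1
    have hc2 : ((Ro F y k).card : ℝ) ≤ qq F ^ k * X2 := by
      rw [← hmean2, hcard2]
      exact Finset.sum_le_sum fun f hf => hs2 f (mem_Mon.mp hf).1
    -- the upper bound
    have hU : ∑ f ∈ Ro F y k, ‖phi χ c f‖ ^ 2 ≤ qq F ^ k * X2 * nsq c := by
      rw [hRo]
      calc _ ≤ ∑ f ∈ Mon F k, lw (10 * b * y) nu2 f * ‖phi χ c f‖ ^ 2 :=
            Finset.sum_le_sum fun f hf =>
              mul_le_mul_of_nonneg_right (hs2 f (mem_Mon.mp hf).1) (by positivity)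
        _ = ∑ i, ‖c i‖ ^ 2 * ∑ f ∈ Mon F k, lw (10 * b * y) nu2 f * ‖χ i f‖ ^ 2 :=
            star hHC hVAN h _ k hD nu2 c
        _ ≤ ∑ i, ‖c i‖ ^ 2 * (qq F ^ k * X2) := by
            refine Finset.sum_le_sum fun i _ => mul_le_mul_of_nonneg_left ?_ (by positivity)
            rw [← hmean2]
            refine Finset.sum_le_sum fun f hf => ?_
            obtain ⟨Q, l, hQ, -⟩ := h.lev i
            have h4 : 0 ≤ lw (10 * b * y) nu2 f := by
              refine le_trans ?_ (hs2 f (mem_Mon.mp hf).1)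
              split_ifs <;> norm_num
            have h5 : ‖χ i f‖ ^ 2 ≤ 1 := pow_le_one₀ (norm_nonneg _) (hay_norm_le hQ f)
            exact mul_le_of_le_one_right h4 h5
        _ = _ := by
            rw [← Finset.sum_mul, mul_comm]
            rfl
    -- the lower bound
    have hL : qq F ^ k * X1 * nsq c ≤ ∑ f ∈ Ro F y k, ‖phi χ c f‖ ^ 2 := by
      rw [hRo]
      calc qq F ^ k * X1 * nsq c = ∑ i, ‖c i‖ ^ 2 * (qq F ^ k * X1) := by
            rw [← Finset.sum_mul, mul_comm]
            rfl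
        _ ≤ ∑ i, ‖c i‖ ^ 2 * ∑ f ∈ Mon F k, lw (10 * b * y) nu1 f * ‖χ i f‖ ^ 2 := by
            refine Finset.sum_le_sum fun i _ => mul_le_mul_of_nonneg_left ?_ (by positivity)
            rw [← hmean1]
            refine Finset.sum_le_sum fun f hf => ?_
            obtain ⟨Q, l, hQ, hQR⟩ := h.lev i
            have hfm := (mem_Mon.mp hf).1
            by_cases hcop : IsCoprime f Q
            · rw [hQ.norm f hfm hcop, one_pow, mul_one]
            · rw [hQ.zero f hfm hcop, norm_zero, zero_pow two_ne_zero, mul_zero]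
              have h4 := hs1 f hfm
              rw [if_neg] at h4
              · exact h4
              · intro hr
                exact hcop (rough_coprime hr hQ.monic (by omega))
        _ = ∑ f ∈ Mon F k, lw (10 * b * y) nu1 f * ‖phi χ c f‖ ^ 2 :=
            (star hHC hVAN h _ k hD nu1 c).symm
        _ ≤ _ := Finset.sum_le_sum fun f hf =>
              mul_le_mul_of_nonneg_right (hs1 f (mem_Mon.mp hf).1) (by positivity)
    have hdiff' : X2 - X1 ≤ C₁ / y * Real.exp (-(1 / 20 * k / y)) := by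
      refine hdiff.trans ?_
      apply mul_le_mul_of_nonneg_left _ (by positivity)
      rw [Real.exp_le_exp]
      linarith
    have h5 : C₁ / (y : ℝ) ≤ Real.exp 2 * (60 * C₂ + 30 + C₁) / y := by
      apply div_le_div_of_nonneg_right _ hy0.le
      nlinarith
    have h6 : X2 - X1 ≤ Real.exp 2 * (60 * C₂ + 30 + C₁) / y * Real.exp (-(1 / 20 * k / y)) :=
      hdiff'.trans (mul_le_mul_of_nonneg_right h5 (Real.exp_pos _).le)
    have h7 : (X2 - X1) * (qq F ^ k * nsq c) ≤
        Real.exp 2 * (60 * C₂ + 30 + C₁) / y * Real.exp (-(1 / 20 * k / y)) *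
          (qq F ^ k * nsq c) := mul_le_mul_of_nonneg_right h6 (by positivity)
    have h8 : qq F ^ k * X1 * nsq c ≤ ((Ro F y k).card : ℝ) * nsq c :=
      mul_le_mul_of_nonneg_right hc1 hn
    have h9 : ((Ro F y k).card : ℝ) * nsq c ≤ qq F ^ k * X2 * nsq c :=
      mul_le_mul_of_nonneg_right hc2 hn
    have h10 : (X2 - X1) * (qq F ^ k * nsq c) = qq F ^ k * X2 * nsq c - qq F ^ k * X1 * nsq c := by
      ring
    rw [abs_le]
    constructor <;> nlinarith

end Pool.Agent.Q95.PS
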