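import Pool.Agent.Q95.PS.RbA

/-!
Project PS (helper284), job NO: the forms of the matrices.
-/

set_option autoImplicit false
set_option linter.unusedSectionVars false

open Finset Polynomial ComplexConjugate
open Pool.Agent.H341R2.Sharp (Mon mem_Mon)
open Pool.Agent.Q284.PS

namespace Pool.Agent.Q95.PS

lemma off_eq {ι : Type} [Fintype ι] (M : ι → ι → ℂ) (u v : ι → ℂ) :
    offF M u v = ∑ i, ∑ j, u i * M i j * v j - ∑ i, u i * M i i * v i := by
  classical
  unfold offF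
  rw [← Finset.sum_sub_distrib]
  refine Finset.sum_congr rfl fun i _ => ?_
  rw [eq_sub_iff_add_eq]
  have h1 : u i * M i i * v i = ∑ j, if i = j then u i * M i j * v j else 0 := by
    rw [Finset.sum_ite_eq Finset.univ i (fun j => u i * M i j * v j)]
    simp
  rw [h1, ← Finset.sum_add_distrib]
  refine Finset.sum_congr rfl fun j _ => ?_
  by_cases h : i = j
  · simp [h]
  · simp [h]

section

variable {F : Type} [Field F]

lemma hay_pow {Q : F[X]} {l : ℕ} {χ : F[X] → ℂ} (h : Hay Q l χ) {P : F[X]} (hP : P.Monic) (m : ℕ) :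
    χ (P ^ m) = χ P ^ m := by
  induction m with
  | zero => rw [pow_zero, pow_zero, h.one]
  | succ m ih => rw [pow_succ, pow_succ, h.mul _ _ (hP.pow m) hP, ih]

lemma norm_sq_phi {ι : Type} [Fintype ι] (χ : ι → F[X] → ℂ) (c : ι → ℂ) (f : F[X]) :
    ((‖phi χ c f‖ ^ 2 : ℝ) : ℂ) = ∑ i, ∑ j, c i * (χ i f * conj (χ j f)) * conj (c j) := by
  have h1 : ((‖phi χ c f‖ ^ 2 : ℝ) : ℂ) = phi χ c f * conj (phi χ c f) := by
    rw [Complex.mul_conj, Complex.normSq_eq_norm_sq]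
  rw [h1]
  unfold phi
  rw [map_sum, Finset.sum_mul_sum]
  refine Finset.sum_congr rfl fun i _ => Finset.sum_congr rfl fun j _ => ?_
  rw [map_mul]
  ring

/-- expansion of a sum of squares -/
lemma full_gen {ι τ : Type} [Fintype ι] (χ : ι → F[X] → ℂ) (c : ι → ℂ) (S : Finset τ) (w : τ → ℝ)
    (g : τ → F[X]) (Z : ℂ) :
    ∑ i, ∑ j, c i * ((∑ t ∈ S, (w t : ℂ) * (χ i (g t) * conj (χ j (g t)))) / Z) * conj (c j)
      = ((∑ t ∈ S, w t * ‖phi χ c (g t)‖ ^ 2 : ℝ) : ℂ) / Z := by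
  have h1 : ∀ t, ((w t * ‖phi χ c (g t)‖ ^ 2 : ℝ) : ℂ)
      = ∑ i, ∑ j, c i * ((w t : ℂ) * (χ i (g t) * conj (χ j (g t)))) * conj (c j) := by
    intro t
    rw [Complex.ofReal_mul, norm_sq_phi, Finset.mul_sum]
    refine Finset.sum_congr rfl fun i _ => ?_
    rw [Finset.mul_sum]
    refine Finset.sum_congr rfl fun j _ => ?_
    ring
  symm
  conv_lhs =>
    rw [Complex.ofReal_sum, Finset.sum_congr rfl (fun t _ => h1 t), Finset.sum_comm, Finset.sum_div]
  refine Finset.sum_congr rfl fun i _ => ?_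
  conv_lhs => rw [Finset.sum_comm, Finset.sum_div]
  refine Finset.sum_congr rfl fun j _ => ?_
  rw [mul_div_assoc', div_mul_eq_mul_div, Finset.mul_sum, Finset.sum_mul]

variable [Fintype F]

lemma nsq_nn {ι : Type} [Fintype ι] (c : ι → ℂ) : 0 ≤ nsq c :=
  Finset.sum_nonneg fun i _ => by positivity

/-- diagonal terms -/
lemma diag_eq {ι τ : Type} [Fintype ι] (χ : ι → F[X] → ℂ) (c : ι → ℂ) (S : Finset τ) (w : τ → ℝ)
    (g : τ → F[X]) (Z : ℂ) (h : ∀ i, ∀ t ∈ S, ‖χ i (g t)‖ = 1) :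
    ∑ i, c i * ((∑ t ∈ S, (w t : ℂ) * (χ i (g t) * conj (χ i (g t)))) / Z) * conj (c i)
      = ((((∑ t ∈ S, w t) * nsq c : ℝ)) : ℂ) / Z := by
  have h1 : ∀ i, (∑ t ∈ S, (w t : ℂ) * (χ i (g t) * conj (χ i (g t))))
      = ((∑ t ∈ S, w t : ℝ) : ℂ) := by
    intro i
    rw [Complex.ofReal_sum]
    refine Finset.sum_congr rfl fun t ht => ?_
    rw [Complex.mul_conj, Complex.normSq_eq_norm_sq, h i t ht, one_pow, Complex.ofReal_one, mul_one]
  unfold nsq
  rw [Complex.ofReal_mul, Complex.ofReal_sum Finset.univ, Finset.mul_sum, Finset.sum_div]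
  refine Finset.sum_congr rfl fun i _ => ?_
  rw [h1]
  have h2 : ((‖c i‖ ^ 2 : ℝ) : ℂ) = c i * conj (c i) := by
    rw [Complex.mul_conj, Complex.normSq_eq_norm_sq]
  rw [h2]
  ring

lemma off_form {ι τ : Type} [Fintype ι] (χ : ι → F[X] → ℂ) (c : ι → ℂ) (S : Finset τ) (w : τ → ℝ)
    (g : τ → F[X]) (Z : ℂ) (h : ∀ i, ∀ t ∈ S, ‖χ i (g t)‖ = 1) :
    offF (fun i j => (∑ t ∈ S, (w t : ℂ) * (χ i (g t) * conj (χ j (g t)))) / Z) c
      (fun i => conj (c i))
      = ((∑ t ∈ S, w t * ‖phi χ c (g t)‖ ^ 2 - (∑ t ∈ S, w t) * nsq c : ℝ) : ℂ) / Z := by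
  rw [off_eq, full_gen, diag_eq χ c S w g Z h, ← sub_div, ← Complex.ofReal_sub]

lemma mem_PD {k : ℕ} {P : F[X]} :
    P ∈ PD F k ↔ (P.Monic ∧ P.natDegree ≤ k) ∧ Irreducible P ∧ P.natDegree ∣ k := by
  classical
  unfold PD
  rw [mem_filter, mem_biUnion]
  refine and_congr ?_ Iff.rfl
  constructor
  · rintro ⟨a, ha, hd⟩
    rw [mem_Mon] at hd
    rw [mem_range] at ha
    exact ⟨hd.1, by omega⟩
  · rintro ⟨h1, h2⟩
    exact ⟨P.natDegree, mem_range.mpr (by omega), mem_Mon.mpr ⟨h1, rfl⟩⟩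

lemma mem_PI {k : ℕ} {P : F[X]} : P ∈ PI F k ↔ (P.Monic ∧ P.natDegree = k) ∧ Irreducible P := by
  classical
  unfold PI
  rw [mem_filter, mem_Mon]

lemma one_le_deg {P : F[X]} (h : Irreducible P) : 1 ≤ P.natDegree := by
  by_contra hc
  have h0 : P.natDegree = 0 := by omega
  rw [natDegree_eq_zero] at h0
  obtain ⟨a, rfl⟩ := h0
  rcases eq_or_ne a 0 with rfl | ha
  · exact h.ne_zero (by simp)
  · exact h.not_isUnit (isUnit_C.mpr (IsUnit.mk0 a ha))

/-- primes of large degree are prime to the levels -/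
lemma norm_prime {R y : ℕ} {ι : Type} {χ : ι → F[X] → ℂ} (h : Fam R χ) (hR : R ≤ y) (i : ι)
    {P : F[X]} (hPm : P.Monic) (hP : Irreducible P) (hPy : y < P.natDegree) (m : ℕ) :
    ‖χ i (P ^ m)‖ = 1 := by
  obtain ⟨Q, l, hQ, hQR⟩ := h.lev i
  rw [hay_pow hQ hPm, norm_pow, hQ.norm P hPm, one_pow]
  rw [hP.coprime_iff_not_dvd]
  intro hd
  have := natDegree_le_of_dvd hd hQ.monic.ne_zero
  omega

/-- rough polynomials are prime to the levels -/
lemma norm_rough {R y k : ℕ} {ι : Type} {χ : ι → F[X] → ℂ} (h : Fam R χ) (hR : R ≤ y) (i : ι)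
    {f : F[X]} (hf : f ∈ Ro F y k) : ‖χ i f‖ = 1 := by
  classical
  obtain ⟨Q, l, hQ, hQR⟩ := h.lev i
  obtain ⟨h1, h2⟩ := mem_Ro.mp hf
  exact hQ.norm f h1.1 (rough_coprime h2 hQ.monic (by omega))

/-- the form of `r` -/
lemma r_form {R y : ℕ} {ι : Type} [Fintype ι] {χ : ι → F[X] → ℂ} (h : Fam R χ) (hR : R ≤ y)
    (k : ℕ) (c : ι → ℂ) :
    offF (fun i j => rr y (fun f => χ i f * conj (χ j f)) k) c (fun i => conj (c i))
      = ((∑ f ∈ Ro F y k, ‖phi χ c f‖ ^ 2 - (Ro F y k).card * nsq c : ℝ) : ℂ) / (qq F : ℂ) ^ k := by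
  have h1 := off_form χ c (Ro F y k) (fun _ => 1) (fun f => f) ((qq F : ℂ) ^ k)
    (fun i f hf => norm_rough h hR i hf)
  simp only [Complex.ofReal_one, one_mul, Finset.sum_const, nsmul_eq_mul, mul_one] at h1
  exact h1

/-- the entries of `A` -/
lemma AA_eq {R y : ℕ} {ι : Type} {χ : ι → F[X] → ℂ} (h : Fam R χ) (k : ℕ) (i j : ι) :
    AA y (fun f => χ i f * conj (χ j f)) k
      = (open Classical in (∑ P ∈ (PD F k).filter (fun P => y < P.natDegree),
          (((P.natDegree : ℝ)) : ℂ) * (χ i (P ^ (k / P.natDegree)) *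
            conj (χ j (P ^ (k / P.natDegree))))) / (qq F : ℂ) ^ k) := by
  classical
  obtain ⟨Q, l, hQ, -⟩ := h.lev i
  obtain ⟨Q', l', hQ', -⟩ := h.lev j
  unfold AA
  congr 1
  refine Finset.sum_congr ?_ fun P hP => ?_
  · ext P
    simp
  · have hPm := (mem_PD.mp (mem_filter.mp hP).1).1.1
    rw [hay_pow hQ hPm, hay_pow hQ' hPm, map_pow, mul_pow]
    norm_num

open Classical in
/-- the form of `A` -/
lemma A_form {R y : ℕ} {ι : Type} [Fintype ι] {χ : ι → F[X] → ℂ} (h : Fam R χ) (hR : R ≤ y)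
    (k : ℕ) (c : ι → ℂ) :
    offF (fun i j => AA y (fun f => χ i f * conj (χ j f)) k) c (fun i => conj (c i))
      = ((∑ P ∈ (PD F k).filter (fun P => y < P.natDegree),
          (P.natDegree : ℝ) * ‖phi χ c (P ^ (k / P.natDegree))‖ ^ 2 -
          (∑ P ∈ (PD F k).filter (fun P => y < P.natDegree), (P.natDegree : ℝ)) * nsq c : ℝ) : ℂ)
        / (qq F : ℂ) ^ k := by
  have h1 := off_form χ c ((PD F k).filter (fun P => y < P.natDegree))
    (fun P => (P.natDegree : ℝ)) (fun P => P ^ (k / P.natDegree)) ((qq F : ℂ) ^ k)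
    (fun i P hP => by
      obtain ⟨h2, h3⟩ := mem_filter.mp hP
      obtain ⟨h4, h5, -⟩ := mem_PD.mp h2
      exact norm_prime h hR i h4.1 h5 h3 _)
  rw [← h1]
  congr 1
  funext i j
  exact AA_eq h k i j

/-- the product of `r` and `m` -/
lemma rm_bound {R y : ℕ} {ι : Type} [Fintype ι] {χ : ι → F[X] → ℂ} (h : Fam R χ)
    (M : ι → ι → ℂ) (κ : ℝ) (hκ : 0 ≤ κ)
    (hM : ∀ u v : ι → ℂ, ‖offF M u v‖ ≤ κ * Real.sqrt (nsq u) * Real.sqrt (nsq v)) (l : ℕ)
    (u v : ι → ℂ) :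
    ‖offF (fun i j => M i j * mm y (fun f => χ i f * conj (χ j f)) l) u v‖
      ≤ ((Ro F y l).card : ℝ) / qq F ^ l * (κ * Real.sqrt (nsq u) * Real.sqrt (nsq v)) := by
  classical
  have hq : 0 < qq F ^ l := pow_pos qq_pos l
  have e : offF (fun i j => M i j * mm y (fun f => χ i f * conj (χ j f)) l) u v
      = (∑ g ∈ Ro F y l, (mu g : ℂ) * offF M (fun i => u i * χ i g)
          (fun j => v j * conj (χ j g))) / (qq F : ℂ) ^ l := by
    unfold offF mm
    have h1 : ∀ g : F[X], (mu g : ℂ) * (∑ i, ∑ j, if i = j then 0 else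
        u i * χ i g * M i j * (v j * conj (χ j g)))
        = ∑ i, ∑ j, if i = j then 0 else
          u i * (M i j * ((mu g : ℂ) * (χ i g * conj (χ j g)))) * v j := by
      intro g
      rw [Finset.mul_sum]
      refine Finset.sum_congr rfl fun i _ => ?_
      rw [Finset.mul_sum]
      refine Finset.sum_congr rfl fun j _ => ?_
      by_cases hij : i = j
      · rw [if_pos hij, if_pos hij, mul_zero]
      · rw [if_neg hij, if_neg hij]
        ring
    symm
    conv_lhs => rw [Finset.sum_congr rfl (fun g _ => h1 g), Finset.sum_comm, Finset.sum_div]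
    refine Finset.sum_congr rfl fun i _ => ?_
    conv_lhs => rw [Finset.sum_comm, Finset.sum_div]
    refine Finset.sum_congr rfl fun j _ => ?_
    by_cases hij : i = j
    · simp only [hij, if_true, Finset.sum_const_zero, zero_div]
    · simp only [hij, if_false]
      rw [← Finset.sum_mul, ← Finset.mul_sum, ← Finset.mul_sum]
      ring
  have hsq : ∀ (w : ι → ℂ) (g : F[X]) (z : ι → ℂ), (∀ i, ‖z i‖ ≤ 1) →
      Real.sqrt (nsq (fun i => w i * z i)) ≤ Real.sqrt (nsq w) := by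
    intro w g z hz
    apply Real.sqrt_le_sqrt
    unfold nsq
    refine Finset.sum_le_sum fun i _ => ?_
    rw [norm_mul]
    apply pow_le_pow_left₀ (by positivity)
    exact mul_le_of_le_one_right (norm_nonneg _) (hz i)
  have hχ : ∀ (i : ι) (g : F[X]), ‖χ i g‖ ≤ 1 := by
    intro i g
    obtain ⟨Q, l', hQ, -⟩ := h.lev i
    exact hay_norm_le hQ g
  have hmu : ∀ g : F[X], ‖(mu g : ℂ)‖ ≤ 1 := by
    intro g
    rw [Complex.norm_real, Real.norm_eq_abs]
    unfold mu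
    split_ifs
    · rw [abs_pow, abs_neg, abs_one, one_pow]
    · rw [abs_zero]
      exact zero_le_one
  rw [e, norm_div, norm_pow, Complex.norm_real, Real.norm_of_nonneg qq_pos.le, div_mul_eq_mul_div,
    div_le_div_iff_of_pos_right hq]
  refine (norm_sum_le _ _).trans ?_
  rw [← nsmul_eq_mul]
  refine Finset.sum_le_card_nsmul _ _ _ fun g _ => ?_
  rw [norm_mul]
  have h2 := hM (fun i => u i * χ i g) (fun j => v j * conj (χ j g))
  have h3 := hsq u g (fun i => χ i g) (fun i => hχ i g)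
  have h4 := hsq v g (fun j => conj (χ j g)) (fun j => by
    rw [RCLike.norm_conj]
    exact hχ j g)
  have h5 : κ * Real.sqrt (nsq (fun i => u i * χ i g)) * Real.sqrt (nsq (fun j => v j * conj (χ j g)))
      ≤ κ * Real.sqrt (nsq u) * Real.sqrt (nsq v) := by
    apply mul_le_mul (mul_le_mul_of_nonneg_left h3 hκ) h4 (Real.sqrt_nonneg _)
    positivity
  calc ‖(mu g : ℂ)‖ * ‖offF M (fun i => u i * χ i g) (fun j => v j * conj (χ j g))‖
      ≤ 1 * (κ * Real.sqrt (nsq u) * Real.sqrt (nsq v)) :=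
        mul_le_mul (hmu g) (h2.trans h5) (norm_nonneg _) zero_le_one
    _ = _ := one_mul _

end

end Pool.Agent.Q95.PS
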