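import Pool.Agent.Q284.PS.Stm

/-!
Project PS (helper284), job RB: orthogonality and the weights.
-/

set_option autoImplicit false

open Finset Polynomial ComplexConjugate
open Pool.Agent.H341R2.Sharp (Mon mem_Mon)
open Pool.Agent.Q284.PS

namespace Pool.Agent.Q95.PS

section

variable {F : Type} [Field F]

lemma hay_norm_le {Q : F[X]} {l : ℕ} {χ : F[X] → ℂ} (h : Hay Q l χ) (f : F[X]) : ‖χ f‖ ≤ 1 := by
  by_cases hf : f.Monic
  · by_cases hc : IsCoprime f Q
    · exact (h.norm f hf hc).le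
    · rw [h.zero f hf hc, norm_zero]
      exact zero_le_one
  · rw [h.off f hf, norm_zero]
    exact zero_le_one

lemma hay_norm_one {Q : F[X]} {l : ℕ} {χ : F[X] → ℂ} (h : Hay Q l χ) {f : F[X]} (h0 : χ f ≠ 0) :
    ‖χ f‖ = 1 := by
  by_cases hf : f.Monic
  · by_cases hc : IsCoprime f Q
    · exact h.norm f hf hc
    · exact absurd (h.zero f hf hc) h0
  · exact absurd (h.off f hf) h0

lemma rough_mono {y y' : ℕ} (h : y' ≤ y) {f : F[X]} (hf : Rough y f) : Rough y' f :=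
  fun P hP hPi hPf => lt_of_le_of_lt h (hf P hP hPi hPf)

lemma rough_coprime {y : ℕ} {f Q : F[X]} (hf : Rough y f) (hQ : Q.Monic) (hQy : Q.natDegree ≤ y) :
    IsCoprime f Q := by
  apply isCoprime_of_prime_dvd
  · rintro ⟨-, h⟩
    exact hQ.ne_zero h
  · intro z hz hzf hzQ
    have hz0 : z ≠ 0 := hz.ne_zero
    have hlc : IsUnit (C z.leadingCoeff⁻¹ : F[X]) :=
      isUnit_C.mpr (IsUnit.mk0 _ (inv_ne_zero (leadingCoeff_ne_zero.mpr hz0)))
    have h1 : (z * C z.leadingCoeff⁻¹).Monic := monic_mul_leadingCoeff_inv hz0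
    have hassoc : Associated z (z * C z.leadingCoeff⁻¹) :=
      (associated_mul_unit_right z _ hlc)
    have h2 : Irreducible (z * C z.leadingCoeff⁻¹) := hassoc.irreducible hz.irreducible
    have h3 := hf _ h1 h2 (hassoc.dvd_iff_dvd_left.mp hzf)
    have h4 : z * C z.leadingCoeff⁻¹ ∣ Q := hassoc.dvd_iff_dvd_left.mp hzQ
    have h5 := natDegree_le_of_dvd h4 hQ.ne_zero
    omega

variable [Fintype F]

lemma qq_pos : 0 < qq F := by
  unfold qq
  exact_mod_cast Fintype.card_pos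

lemma mem_UB {k : ℕ} {d : F[X]} : d ∈ UB F k ↔ d.Monic ∧ d.natDegree ≤ k := by
  classical
  unfold UB
  rw [mem_biUnion]
  constructor
  · rintro ⟨a, ha, hd⟩
    rw [mem_Mon] at hd
    rw [mem_range] at ha
    exact ⟨hd.1, by omega⟩
  · rintro ⟨h1, h2⟩
    exact ⟨d.natDegree, mem_range.mpr (by omega), mem_Mon.mpr ⟨h1, rfl⟩⟩

open Classical in
lemma mem_Ro {y k : ℕ} {f : F[X]} : f ∈ Ro F y k ↔ (f.Monic ∧ f.natDegree = k) ∧ Rough y f := by
  unfold Ro
  rw [mem_filter, mem_Mon]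

open Classical in
/-- the weight -/
noncomputable def lw (D : ℕ) (nu : F[X] → ℝ) (f : F[X]) : ℝ :=
  ∑ d ∈ (UB F D).filter (fun d => d ∣ f), nu d

open Classical in
lemma sum_lw (D k : ℕ) (nu : F[X] → ℝ) (g : F[X] → ℂ) :
    ∑ f ∈ Mon F k, (lw D nu f : ℂ) * g f
      = ∑ d ∈ UB F D, (nu d : ℂ) * ∑ f ∈ (Mon F k).filter (fun f => d ∣ f), g f := by
  have h1 : ∀ f : F[X], (lw D nu f : ℂ) * g f
      = ∑ d ∈ UB F D, if d ∣ f then (nu d : ℂ) * g f else 0 := by
    intro f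
    unfold lw
    rw [Complex.ofReal_sum, Finset.sum_mul, Finset.sum_filter]
  rw [Finset.sum_congr rfl (fun f _ => h1 f), Finset.sum_comm]
  refine Finset.sum_congr rfl fun d _ => ?_
  rw [Finset.mul_sum, Finset.sum_filter]

open Classical in
lemma mean_lw (hCM : S_CMON) (D k : ℕ) (hDk : D ≤ k) (nu : F[X] → ℝ) :
    ∑ f ∈ Mon F k, lw D nu f = qq F ^ k * ∑ d ∈ UB F D, nu d / qq F ^ d.natDegree := by
  have h1 : ∑ f ∈ Mon F k, lw D nu f
      = ∑ d ∈ UB F D, nu d * (((Mon F k).filter (fun f => d ∣ f)).card : ℝ) := by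
    have h2 : ∀ f : F[X], lw D nu f = ∑ d ∈ UB F D, if d ∣ f then nu d else 0 := by
      intro f
      unfold lw
      rw [Finset.sum_filter]
    rw [Finset.sum_congr rfl (fun f _ => h2 f), Finset.sum_comm]
    refine Finset.sum_congr rfl fun d _ => ?_
    rw [← Finset.sum_filter, Finset.sum_const, nsmul_eq_mul, mul_comm]
  rw [h1, Finset.mul_sum]
  refine Finset.sum_congr rfl fun d hd => ?_
  obtain ⟨hd1, hd2⟩ := mem_UB.mp hd
  have hq : qq F ≠ 0 := (qq_pos (F := F)).ne'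
  have h3 := (hCM F).2 d k hd1 (hd2.trans hDk)
  rw [h3]
  push_cast
  have h4 : (Fintype.card F : ℝ) = qq F := rfl
  rw [h4]
  have h5 : qq F ^ k = qq F ^ (k - d.natDegree) * qq F ^ d.natDegree := by
    rw [← pow_add]
    congr 1
    omega
  rw [h5]
  field_simp

open Classical in
/-- orthogonality -/
lemma fam_orth (hHC : S_HC) (hVAN : S_VAN) {R : ℕ} {ι : Type} {χ : ι → F[X] → ℂ} (h : Fam R χ)
    {i j : ι} (hij : i ≠ j) (d : F[X]) (k : ℕ) (hd : d.Monic) (hk : d.natDegree + 2 * R ≤ k) :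
    ∑ f ∈ (Mon F k).filter (fun f => d ∣ f), χ i f * conj (χ j f) = 0 := by
  obtain ⟨Q, l, hQ, hQR⟩ := h.lev i
  obtain ⟨Q', l', hQ', hQR'⟩ := h.lev j
  obtain ⟨g, hg, hgi, hgj, hgij⟩ := h.sep i j hij
  have h1 := (hHC F Q Q' l l' (χ i) (χ j) hQ hQ').1
  refine hVAN F (Q * Q') (max l l') _ h1 ⟨g, hg, ?_, ?_⟩ d k hd ?_
  · exact mul_ne_zero hgi ((_root_.map_ne_zero _).mpr hgj)
  · intro h2
    apply hgij
    have h3 : χ j g * conj (χ j g) = 1 := by
      rw [Complex.mul_conj, Complex.normSq_eq_norm_sq, hay_norm_one hQ' hgj]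
      norm_num
    calc χ i g = χ i g * (χ j g * conj (χ j g)) := by rw [h3, mul_one]
      _ = (χ i g * conj (χ j g)) * χ j g := by ring
      _ = χ j g := by rw [h2, one_mul]
  · rw [hQ.monic.natDegree_mul hQ'.monic]
    have : max l l' ≤ l + l' := max_le (Nat.le_add_right _ _) (Nat.le_add_left _ _)
    omega

open Classical in
/-- the diagonal formula -/
lemma star (hHC : S_HC) (hVAN : S_VAN) {R : ℕ} {ι : Type} [Fintype ι] {χ : ι → F[X] → ℂ}
    (h : Fam R χ) (D k : ℕ) (hk : D + 2 * R ≤ k) (nu : F[X] → ℝ) (c : ι → ℂ) :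
    ∑ f ∈ Mon F k, lw D nu f * ‖phi χ c f‖ ^ 2
      = ∑ i, ‖c i‖ ^ 2 * ∑ f ∈ Mon F k, lw D nu f * ‖χ i f‖ ^ 2 := by
  have key : ∀ i j : ι, i ≠ j → ∑ f ∈ Mon F k, (lw D nu f : ℂ) * (χ i f * conj (χ j f)) = 0 := by
    intro i j hij
    rw [sum_lw D k nu (fun f => χ i f * conj (χ j f))]
    apply Finset.sum_eq_zero
    intro d hd
    obtain ⟨hd1, hd2⟩ := mem_UB.mp hd
    rw [fam_orth hHC hVAN h hij d k hd1 (by omega), mul_zero]
  have hC : ((∑ f ∈ Mon F k, lw D nu f * ‖phi χ c f‖ ^ 2 : ℝ) : ℂ)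
      = ((∑ i, ‖c i‖ ^ 2 * ∑ f ∈ Mon F k, lw D nu f * ‖χ i f‖ ^ 2 : ℝ) : ℂ) := by
    have h1 : ∀ z : ℂ, ((‖z‖ ^ 2 : ℝ) : ℂ) = z * conj z := by
      intro z
      rw [Complex.mul_conj, Complex.normSq_eq_norm_sq]
    have h2 : ∀ f : F[X], ((lw D nu f * ‖phi χ c f‖ ^ 2 : ℝ) : ℂ)
        = ∑ i, ∑ j, (c i * conj (c j)) * ((lw D nu f : ℂ) * (χ i f * conj (χ j f))) := by
      intro f
      rw [Complex.ofReal_mul, h1]
      unfold phi
      rw [map_sum, Finset.sum_mul_sum, Finset.mul_sum]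
      refine Finset.sum_congr rfl fun i _ => ?_
      rw [Finset.mul_sum]
      refine Finset.sum_congr rfl fun j _ => ?_
      rw [map_mul]
      ring
    rw [Complex.ofReal_sum, Finset.sum_congr rfl (fun f _ => h2 f), Finset.sum_comm,
      Complex.ofReal_sum]
    refine Finset.sum_congr rfl fun i _ => ?_
    rw [Finset.sum_comm, Finset.sum_eq_single i]
    · rw [← Finset.mul_sum, Complex.ofReal_mul, h1, Complex.ofReal_sum]
      congr 1
      refine Finset.sum_congr rfl fun f _ => ?_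
      rw [Complex.ofReal_mul, h1]
    · intro j _ hj
      rw [← Finset.mul_sum, key i j hj.symm, mul_zero]
    · intro h'
      exact absurd (Finset.mem_univ i) h'
  exact_mod_cast hC

end

end Pool.Agent.Q95.PS
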